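import Pool.Agent.helper69.DH.SpecR

/-!
# Project d2: (MP_5823cb_al), part R: row rDN4 (density of the cells which satisfy the enlarged rule for critical cells)
-/

set_option autoImplicit false

open Filter Topology MeasureTheory
open scoped commutatorElement

namespace Pool.Agent.helper90.DH

open Pool.Agent.helper64.D2

theorem rDN4 (hBAS : rBAS_stmt) (hGEO : rGEO_stmt) (hDNA : rDNA_stmt) (hMXS : rMXS_stmt) : rDN4_stmt := by
  classical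
  intro P S hR s H K hs1 hs hI κ Q hQ
  have hR1 := hR.1
  have h5 : 5 ≤ s := by omega
  have hs0 : P.s0 ≤ s := by omega
  have hd : 0 < P.d1 := hR1.2.2.2.2.2.2.1
  have hp : (0 : ℝ) < P.d1 * 2 ^ (s - P.ell) := by positivity
  obtain ⟨Q', hQ'⟩ : ∃ Q' : Finset ℤ, Q' = (rTg s).filter (fun m => rin H (rrh 1) s (rlp s m) ∨ P.q ≤ 3000 * rdg P K 1 s m) := ⟨_, rfl⟩
  have hrc : ∀ κ' : ℤ, (rcw P.ell s κ' Q' : ℝ) ≤ (2 ^ 36 + 1) * (P.d1 * 2 ^ (s - P.ell)) := by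
    intro κ'
    obtain ⟨Qa, hQa⟩ : ∃ Qa : Finset ℤ, Qa = Q'.filter (fun m => m / 2 ^ (s - P.ell) = κ' ∧ rin H (rrh 1) s (rlp s m)) := ⟨_, rfl⟩
    obtain ⟨Qb, hQb⟩ : ∃ Qb : Finset ℤ, Qb = Q'.filter (fun m => m / 2 ^ (s - P.ell) = κ' ∧ P.q ≤ 3000 * rdg P K 1 s m) := ⟨_, rfl⟩
    have ha : (Qa.card : ℝ) ≤ 2 ^ 36 * P.d1 * 2 ^ (s - P.ell) := by
      refine (hDNA P S hR s H K hs1 hs hI κ' Qa ?_).1 ?_
      · intro m hm
        rw [hQa, Finset.mem_filter] at hm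
        exact hm.2.1
      · intro m hm
        rw [hQa, Finset.mem_filter] at hm
        exact hm.2.2
    have hb : (Qb.card : ℝ) ≤ P.d1 * 2 ^ (s - P.ell) := by
      refine (hDNA P S hR s H K hs1 hs hI κ' Qb ?_).2.2.1 ?_
      · intro m hm
        rw [hQb, Finset.mem_filter] at hm
        exact hm.2.1
      · intro m hm
        rw [hQb, Finset.mem_filter] at hm
        exact hm.2.2
    have hsub : Q'.filter (fun m => m / 2 ^ (s - P.ell) = κ') ⊆ Qa ∪ Qb := by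
      intro m hm
      rw [Finset.mem_filter] at hm
      have hm' := hm.1
      rw [hQ', Finset.mem_filter] at hm'
      rw [Finset.mem_union, hQa, hQb, Finset.mem_filter, Finset.mem_filter]
      rcases hm'.2 with h | h
      · exact Or.inl ⟨hm.1, hm.2, h⟩
      · exact Or.inr ⟨hm.1, hm.2, h⟩
    have hc : rcw P.ell s κ' Q' ≤ Qa.card + Qb.card := by
      unfold rcw
      exact (Finset.card_le_card hsub).trans (Finset.card_union_le _ _)
    have hc' : (rcw P.ell s κ' Q' : ℝ) ≤ (Qa.card : ℝ) + Qb.card := by exact_mod_cast hc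
    linarith
  have h24 : ∀ n ∈ Q, |rlp s n - 1 / 2| ≤ 24 / 100 := by
    intro n hn
    obtain ⟨-, h1, h2⟩ := hBAS.2.2.2.2.2.2.2.2.1 s n h5 (hQ n hn).2.1
    rw [abs_le]
    constructor <;> linarith
  have hmain := hMXS P S hR s Q Q' κ (1 / 100) (3 * ((2 ^ 36 + 1) * (P.d1 * 2 ^ (s - P.ell)))) hs1 hs (by norm_num) h24
    (fun n hn => (hQ n hn).1) ?_ ?_ ?_
  · refine hmain.trans ?_
    have : 4 * (3 * ((2 ^ 36 + 1) * (P.d1 * 2 ^ (s - P.ell)))) / (2 ^ 104 * (1 / 100 : ℝ) ^ 2) =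
        (4 * 3 * (2 ^ 36 + 1) * 10 ^ 4 / 2 ^ 104) * (P.d1 * 2 ^ (s - P.ell)) := by ring
    rw [this]
    have h2 : (4 * 3 * (2 ^ 36 + 1) * 10 ^ 4 / 2 ^ 104 : ℝ) ≤ 1 / 4 := by norm_num
    calc (4 * 3 * (2 ^ 36 + 1) * 10 ^ 4 / 2 ^ 104 : ℝ) * (P.d1 * 2 ^ (s - P.ell)) ≤ 1 / 4 * (P.d1 * 2 ^ (s - P.ell)) :=
          mul_le_mul_of_nonneg_right h2 hp.le
      _ = P.d1 / 4 * 2 ^ (s - P.ell) := by ring
  · intro n hn
    have h1 : P.q ≤ 100 * ((Finset.range P.q).filter (fun k => rin H (rrh ((1 : ℕ))) s (rlp s (rbb P s k n)) ∨ P.q ≤ 3000 * rdg P K 1 s (rbb P s k n))).card :=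
      (hQ n hn).2.2
    have h2 : ((Finset.range P.q).filter (fun k => rin H (rrh ((1 : ℕ))) s (rlp s (rbb P s k n)) ∨ P.q ≤ 3000 * rdg P K 1 s (rbb P s k n))).card ≤
        ((Finset.range P.q).filter (fun k => rbb P s k n ∈ Q')).card := by
      apply Finset.card_le_card
      intro k hk
      rw [Finset.mem_filter] at hk ⊢
      refine ⟨hk.1, ?_⟩
      rw [hQ', Finset.mem_filter]
      refine ⟨?_, hk.2⟩
      exact (((hGEO P S hR).2 s k hs0 hs (Finset.mem_range.1 hk.1)).2.2.2 n (h24 n hn)).2.1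
    have h3 : P.q ≤ 100 * ((Finset.range P.q).filter (fun k => rbb P s k n ∈ Q')).card := h1.trans (Nat.mul_le_mul_left 100 h2)
    have h4 : (P.q : ℝ) ≤ 100 * (((Finset.range P.q).filter (fun k => rbb P s k n ∈ Q')).card : ℝ) := by exact_mod_cast h3
    linarith
  · have e1 := hrc (κ - 1)
    have e2 := hrc κ
    have e3 := hrc (κ + 1)
    linarith
  · have : 4 * (3 * ((2 ^ 36 + 1) * (P.d1 * 2 ^ (s - P.ell)))) / (2 ^ 104 * (1 / 100 : ℝ) ^ 2) =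
        (4 * 3 * (2 ^ 36 + 1) * 10 ^ 4 / 2 ^ 104) * (P.d1 * 2 ^ (s - P.ell)) := by ring
    rw [this]
    have h2 : (4 * 3 * (2 ^ 36 + 1) * 10 ^ 4 / 2 ^ 104 : ℝ) ≤ 2 ^ 9 := by norm_num
    calc (4 * 3 * (2 ^ 36 + 1) * 10 ^ 4 / 2 ^ 104 : ℝ) * (P.d1 * 2 ^ (s - P.ell)) ≤ 2 ^ 9 * (P.d1 * 2 ^ (s - P.ell)) :=
          mul_le_mul_of_nonneg_right h2 hp.le
      _ = 2 ^ 9 * P.d1 * 2 ^ (s - P.ell) := by ring

end Pool.Agent.helper90.DH
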